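import Mathlib
import Pool.Agent.H58R.Rat

set_option autoImplicit false

/-!
# Small points of fields generated by radicals, and division groups

All fields are subfields of `AlgebraicClosure ℚ`; subgroups of the multiplicative group are
subgroups of the unit group of `AlgebraicClosure ℚ`.
-/

namespace Pool.Agent.Results.MP_f61260_nt.RadicalTowers

open Pool.Agent.H58P (Qb ht)

/-- `β` lies in the division group of `Γ`: a positive power of `β` is an element of `Γ` -/
def InDivisionGroup (Γ : Subgroup (AlgebraicClosure ℚ)ˣ) (β : AlgebraicClosure ℚ) : Prop :=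
  ∃ n : ℕ, 0 < n ∧ ∃ g ∈ Γ, β ^ n = (g : AlgebraicClosure ℚ)

/-- the small points of `L*` lie in the division group of `Γ`: some positive number is a lower
bound for the absolute logarithmic Weil height of every nonzero element of `L` outside the
division group -/
def SmallPointsIn (L : IntermediateField ℚ (AlgebraicClosure ℚ))
    (Γ : Subgroup (AlgebraicClosure ℚ)ˣ) : Prop :=
  ∃ c : ℝ, 0 < c ∧ ∀ β ∈ L, β ≠ 0 → ¬ InDivisionGroup Γ β → c ≤ NumberField.absLogHeight₁ β

/-- the field generated over `K` by the elements `r p k`, `p ∈ P`, `k = 0, 1, 2, …` -/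
noncomputable def radicalField (K : IntermediateField ℚ (AlgebraicClosure ℚ)) (P : Finset ℕ)
    (r : ℕ → ℕ → AlgebraicClosure ℚ) : IntermediateField ℚ (AlgebraicClosure ℚ) :=
  K ⊔ IntermediateField.adjoin ℚ {y | ∃ p ∈ P, ∃ k, y = r p k}

/-- for every `p ∈ P` the sequence `r p 0, r p 1, r p 2, …` starts with `a p` and each term is a
`p`-th root of the previous one: `r p k` is a compatible choice of `(a p)^(1/p^k)` -/
def IsRadicalSystem (P : Finset ℕ) (a : ℕ → (AlgebraicClosure ℚ)ˣ)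
    (r : ℕ → ℕ → AlgebraicClosure ℚ) : Prop :=
  ∀ p ∈ P, r p 0 = (a p : AlgebraicClosure ℚ) ∧ ∀ k, r p (k + 1) ^ p = r p k

/-- at no place of `AlgebraicClosure ℚ` above a prime `p ∈ P` is the value of `a p` the `p`-th
power of the value of an element of `K` -/
def Ramified (K : IntermediateField ℚ (AlgebraicClosure ℚ)) (P : Finset ℕ)
    (a : ℕ → (AlgebraicClosure ℚ)ˣ) : Prop :=
  ∀ p ∈ P, ∀ V : ValuationSubring (AlgebraicClosure ℚ), V.valuation (p : AlgebraicClosure ℚ) < 1 →
    ∀ b ∈ K, V.valuation (a p : AlgebraicClosure ℚ) ≠ V.valuation b ^ p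

lemma smallPointsIn_iff (L : IntermediateField ℚ (AlgebraicClosure ℚ))
    (Γ : Subgroup (AlgebraicClosure ℚ)ˣ) :
    SmallPointsIn L Γ ↔ Pool.Agent.H58R.Small L Γ := by
  constructor
  · rintro ⟨c, hc, h⟩
    refine ⟨c, hc, fun β hβ hβ0 hnd => ?_⟩
    rw [← Pool.Agent.H58P.absLogHeight₁_eq]
    exact h β hβ hβ0 hnd
  · rintro ⟨c, hc, h⟩
    refine ⟨c, hc, fun β hβ hβ0 hnd => ?_⟩
    rw [Pool.Agent.H58P.absLogHeight₁_eq]
    exact h β hβ hβ0 hnd

lemma transfer (K : IntermediateField ℚ (AlgebraicClosure ℚ))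
    (Γ : Subgroup (AlgebraicClosure ℚ)ˣ) (hK : SmallPointsIn K Γ) (P : Finset ℕ)
    (hP : ∀ p ∈ P, p.Prime) (a : ℕ → (AlgebraicClosure ℚ)ˣ)
    (haK : ∀ p ∈ P, (a p : AlgebraicClosure ℚ) ∈ K) (hram : Ramified K P a)
    (r : ℕ → ℕ → AlgebraicClosure ℚ) (hr : IsRadicalSystem P a r) :
    SmallPointsIn (radicalField K P r) (Γ ⊔ Subgroup.closure (a '' (P : Set ℕ))) := by
  rw [smallPointsIn_iff] at hK ⊢
  exact (Pool.Agent.H58R.main K Γ hK a r P hP haK (fun p hp => (hr p hp).1)
    (fun p hp => (hr p hp).2) hram).1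

/-- **Small points of fields generated by radicals.**

1. (Transfer.) Let the small points of `K*` lie in the division group of `Γ`, let `P` be a finite
set of primes, and let `a p ∈ K*`, `p ∈ P`, be such that at no place above `p` the value of `a p`
is a `p`-th power in the value group of `K`. Then the small points of `K(a_p^{1/p^k} : p ∈ P, k)*`
lie in the division group of `⟨Γ, a_p : p ∈ P⟩`.

2. This applies, with `Γ` trivial, to every number field `K`.

3. For `K = ℚ`, it is enough that the `p`-adic order of `a_p ∈ ℚ*` is not divisible by `p`, for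
every `p ∈ P`. -/
theorem result :
    (∀ (K : IntermediateField ℚ (AlgebraicClosure ℚ)) (Γ : Subgroup (AlgebraicClosure ℚ)ˣ),
      SmallPointsIn K Γ →
      ∀ (P : Finset ℕ), (∀ p ∈ P, p.Prime) →
      ∀ (a : ℕ → (AlgebraicClosure ℚ)ˣ), (∀ p ∈ P, (a p : AlgebraicClosure ℚ) ∈ K) →
      Ramified K P a →
      ∀ (r : ℕ → ℕ → AlgebraicClosure ℚ), IsRadicalSystem P a r →
        SmallPointsIn (radicalField K P r) (Γ ⊔ Subgroup.closure (a '' (P : Set ℕ)))) ∧
    (∀ (K : IntermediateField ℚ (AlgebraicClosure ℚ)), FiniteDimensional ℚ K →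
      ∀ (P : Finset ℕ), (∀ p ∈ P, p.Prime) →
      ∀ (a : ℕ → (AlgebraicClosure ℚ)ˣ), (∀ p ∈ P, (a p : AlgebraicClosure ℚ) ∈ K) →
      Ramified K P a →
      ∀ (r : ℕ → ℕ → AlgebraicClosure ℚ), IsRadicalSystem P a r →
        SmallPointsIn (radicalField K P r) (Subgroup.closure (a '' (P : Set ℕ)))) ∧
    (∀ (P : Finset ℕ), (∀ p ∈ P, p.Prime) →
      ∀ (s : ℕ → ℚ) (a : ℕ → (AlgebraicClosure ℚ)ˣ),
      (∀ p ∈ P, (a p : AlgebraicClosure ℚ) = algebraMap ℚ (AlgebraicClosure ℚ) (s p)) →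
      (∀ p ∈ P, ¬ (p : ℤ) ∣ padicValRat p (s p)) →
      ∀ (r : ℕ → ℕ → AlgebraicClosure ℚ), IsRadicalSystem P a r →
        SmallPointsIn (radicalField ⊥ P r) (Subgroup.closure (a '' (P : Set ℕ)))) := by
  have h2 : ∀ (K : IntermediateField ℚ (AlgebraicClosure ℚ)), FiniteDimensional ℚ K →
      ∀ (P : Finset ℕ), (∀ p ∈ P, p.Prime) →
      ∀ (a : ℕ → (AlgebraicClosure ℚ)ˣ), (∀ p ∈ P, (a p : AlgebraicClosure ℚ) ∈ K) →
      Ramified K P a →
      ∀ (r : ℕ → ℕ → AlgebraicClosure ℚ), IsRadicalSystem P a r →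
        SmallPointsIn (radicalField K P r) (Subgroup.closure (a '' (P : Set ℕ))) := by
    intro K hK P hP a haK hram r hr
    have h := transfer K ⊥ ((smallPointsIn_iff K ⊥).mpr (Pool.Agent.H58R.small_nf K hK)) P hP a haK
      hram r hr
    rwa [bot_sup_eq] at h
  refine ⟨transfer, h2, ?_⟩
  intro P hP s a has hs r hr
  refine h2 ⊥ inferInstance P hP a ?_ ?_ r hr
  · intro p hp
    rw [has p hp]
    exact IntermediateField.algebraMap_mem _ _
  · intro p hp V hV b hb
    rw [has p hp]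
    refine Pool.Agent.H58R.cond_rat V p (hP p hp) hV (s p) ?_ (hs p hp) b hb
    intro h0
    have := has p hp
    rw [h0, map_zero] at this
    exact (a p).ne_zero this

end Pool.Agent.Results.MP_f61260_nt.RadicalTowers
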